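import Pool.Agent.Y165.J.Npt
import Pool.Agent.Y988.J.FD

/-!
# J-NDN: algebraic independence on the line `Re z = 1/2`
-/

set_option autoImplicit false

open PowerSeries Filter Topology
open Pool.Agent.TH21.MS (g0 g1 g2 jj)

namespace Pool.Agent.Y165.J

open Pool.Agent.Y120.J Pool.Agent.TH21.MS
open Pool.Agent.Y988.J (Fq qq inv_jj Fq_strict)

/-- `1 / j` as a real function of `q` -/
noncomputable def FR (q : ℝ) : ℝ :=
  q * ((720 * A3 ℝ q + 172800 * q * A3 ℝ q ^ 2 + 13824000 * q ^ 2 * A3 ℝ q ^ 3 +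
    1008 * A5 ℝ q - 254016 * q * A5 ℝ q ^ 2) / (1728 * (1 + 240 * (q * A3 ℝ q)) ^ 3))

theorem Fq_ofReal (q : ℝ) : Fq (q : ℂ) = ((FR q : ℝ) : ℂ) := by
  unfold Fq FR
  rw [A3_ofReal, A5_ofReal]
  push_cast
  rfl

theorem qq_half {w : ℂ} (hre : w.re = 1 / 2) : qq w = ((-(xx w.im) : ℝ) : ℂ) := by
  have hw2 : w = 1 / 2 + (w.im : ℂ) * Complex.I := by
    apply Complex.ext
    · simp [hre]
    · simp
  unfold qq
  have e1 : 2 * (Real.pi : ℂ) * Complex.I * w = (Real.pi : ℂ) * Complex.I +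
      ((-(2 * Real.pi * w.im) : ℝ) : ℂ) := by
    conv_lhs => rw [hw2]
    push_cast
    linear_combination (2 * (Real.pi : ℂ) * (w.im : ℂ)) * Complex.I_sq
  rw [e1, Complex.exp_add, Complex.exp_pi_mul_I, ← Complex.ofReal_exp]
  unfold xx
  push_cast
  ring

theorem neg_line (τ : ℝ) : ∃ Y1 : ℝ, ∀ w : ℂ, Y1 ≤ w.im → w.re = 1 / 2 →
    ∃ t : ℝ, τ < t ∧ jj w = -(t : ℂ) := by
  have h := (Fq_strict.hasDerivAt.isLittleO).def (show (0 : ℝ) < 1 / 2 by norm_num)
  rw [Metric.eventually_nhds_iff] at h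
  obtain ⟨ε, hε, h1⟩ := h
  have hτ : (0 : ℝ) < 2 / (3 * (|τ| + 1)) := by positivity
  have h2 := (xx_tendsto.eventually_lt_const hε).and (xx_tendsto.eventually_lt_const hτ)
  rw [eventually_atTop] at h2
  obtain ⟨Y1, hY1⟩ := h2
  refine ⟨Y1, fun w hw hre => ?_⟩
  obtain ⟨h3, h4⟩ := hY1 w.im hw
  set e := xx w.im with he
  have he0 : 0 < e := xx_pos _
  have hF0 : Fq 0 = 0 := by simp [Fq]
  have h5 := @h1 ((-e : ℝ) : ℂ) (by
    rw [dist_zero_right, Complex.norm_real, Real.norm_eq_abs, abs_neg, abs_of_pos he0]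
    exact h3)
  rw [hF0, Fq_ofReal] at h5
  have h6 : |FR (-e) + e| ≤ 1 / 2 * e := by
    have h7 : ((FR (-e) : ℝ) : ℂ) - 0 - (((-e : ℝ) : ℂ) - 0) • (1 : ℂ) = ((FR (-e) + e : ℝ) : ℂ) := by
      simp
    rw [h7, Complex.norm_real, Real.norm_eq_abs] at h5
    have h8 : ‖(((-e : ℝ) : ℂ) - 0)‖ = e := by
      rw [sub_zero, Complex.norm_real, Real.norm_eq_abs, abs_neg, abs_of_pos he0]
    rw [h8] at h5
    exact h5
  obtain ⟨h7, h8⟩ := abs_le.1 h6
  have h9 : FR (-e) < 0 := by linarith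
  have h10 : (jj w)⁻¹ = ((FR (-e) : ℝ) : ℂ) := by
    rw [inv_jj, qq_half hre, Fq_ofReal]
  refine ⟨-(FR (-e))⁻¹, ?_, ?_⟩
  · have h11 : -(FR (-e)) ≤ 3 / 2 * e := by linarith
    have h12 : 0 < -(FR (-e)) := by linarith
    rw [← inv_neg]
    have h13 : 3 / 2 * e * (|τ| + 1) < 1 := by
      rw [lt_div_iff₀ (by positivity)] at h4
      nlinarith
    have h14 : |τ| + 1 < (-(FR (-e)))⁻¹ := by
      rw [lt_inv_comm₀ (by positivity) h12]
      rw [← one_div, lt_div_iff₀ (by positivity)]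
      have : 0 < |τ| + 1 := by positivity
      nlinarith
    linarith [le_abs_self τ]
  · rw [← inv_inv (jj w), h10]
    push_cast
    ring

/-- the coordinates, as functions on a half-plane -/
noncomputable def cc (z : ℂ) : Option (Fin 3) → ℂ := fun o => o.elim (-(1 / jj z))
  ![-(deriv jj z / jj z), -(z * (deriv jj z / jj z)),
    (deriv (deriv jj) z / deriv jj z - deriv jj z / jj z) / 2]

theorem cc_an {z : ℂ} (hz : 0 < z.im) (h0 : jj z ≠ 0) (h1 : deriv jj z ≠ 0) (o : Option (Fin 3)) :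
    AnalyticAt ℂ (fun z => cc z o) z := by
  have a0 := jj_an z hz
  have a1 := a0.deriv
  have a2 := a1.deriv
  have q0 : AnalyticAt ℂ (fun z => deriv jj z / jj z) z := a1.fun_div a0 h0
  have q1 : AnalyticAt ℂ (fun z => deriv (deriv jj) z / deriv jj z) z := a2.fun_div a1 h1
  rcases o with _ | i
  · exact (analyticAt_const.fun_div a0 h0).neg
  · fin_cases i
    · exact q0.neg
    · exact (analyticAt_id.mul q0).neg
    · exact (q1.sub q0).fun_div analyticAt_const two_ne_zero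

theorem cc_I {y : ℝ} (hy : 0 < y) (h1 : deriv jj (Complex.I * y) ≠ 0) (h0 : jj (Complex.I * y) ≠ 0) :
    cc (Complex.I * y) = fun o => o.elim (-(1 / (g0 y : ℂ))) (zz y) := by
  have hg0 : ((g0 y : ℝ) : ℂ) ≠ 0 := by
    rw [jj_I] at h0
    exact h0
  have hg1 : ((g1 y : ℝ) : ℂ) ≠ 0 := by
    rw [jj_deriv y hy] at h1
    intro h2
    exact h1 (by rw [h2, mul_zero])
  funext o
  unfold cc zz
  rw [jj_I, jj_deriv y hy, jj_deriv2 y hy]
  rcases o with _ | i
  · rfl
  · fin_cases i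
    · show -(-Complex.I * ((g1 y : ℝ) : ℂ) / ((g0 y : ℝ) : ℂ)) = Complex.I * ((g1 y / g0 y : ℝ) : ℂ)
      push_cast
      ring
    · show -(Complex.I * y * (-Complex.I * ((g1 y : ℝ) : ℂ) / ((g0 y : ℝ) : ℂ))) =
        ((-(y * g1 y / g0 y) : ℝ) : ℂ)
      push_cast
      linear_combination (y * ((g1 y : ℝ) : ℂ) / ((g0 y : ℝ) : ℂ)) * Complex.I_sq
    · show (-((g2 y : ℝ) : ℂ) / (-Complex.I * ((g1 y : ℝ) : ℂ)) -
        -Complex.I * ((g1 y : ℝ) : ℂ) / ((g0 y : ℝ) : ℂ)) / 2 =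
        Complex.I / 2 * ((g1 y / g0 y - g2 y / g1 y : ℝ) : ℂ)
      push_cast
      have hI : Complex.I ≠ 0 := Complex.I_ne_zero
      field_simp
      linear_combination (((g2 y : ℝ) : ℂ) * ((g0 y : ℝ) : ℂ)) * Complex.I_sq

theorem cc_half {Y : ℝ} (h : ∀ z : ℂ, Y ≤ z.im → jj z ≠ 0 ∧ deriv jj z ≠ 0 ∧ evc FF (1 / jj z) ≠ 0 ∧
      deriv jj z = -tpi * jj z * evc FF (1 / jj z) ^ 2 ∧
      deriv (deriv jj) z = tpi ^ 2 * jj z * (evc FF (1 / jj z) ^ 4 -
        2 * evc FF (1 / jj z) ^ 3 * evc F1 (1 / jj z)) ∧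
      Complex.exp (tpi * z - evc GG (1 / jj z) / evc FF (1 / jj z)) = 1 / jj z)
    {w : ℂ} (hw : Y ≤ w.im) (hre : w.re = 1 / 2) {t : ℝ} (ht : jj w = -(t : ℂ)) :
    cc w = fun o => o.elim (1 / (t : ℂ)) (pS false t) := by
  obtain ⟨v1, v2, v3, v4⟩ := vals h hw hre ht
  have h0 := (h w hw).1
  have ht0 : (t : ℂ) ≠ 0 := by
    intro h1
    rw [ht, h1] at h0
    simp at h0
  funext o
  unfold cc
  rw [ht, v3, v4]
  rcases o with _ | i
  · show -(1 / -(t : ℂ)) = 1 / (t : ℂ)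
    field_simp
  · fin_cases i
    · show -((t : ℂ) * pS false t 0 / -(t : ℂ)) = pS false t 0
      field_simp
    · show -(w * ((t : ℂ) * pS false t 0 / -(t : ℂ))) = pS false t 1
      rw [← v2]
      field_simp
    · show (-(t : ℂ) * (pS false t 0 ^ 2 - 2 * pS false t 0 * pS false t 2) / (t * pS false t 0) -
        (t : ℂ) * pS false t 0 / -(t : ℂ)) / 2 = pS false t 2
      field_simp
      ring

theorem t_ndn (hanc : T_ANC) (hzd : T_ZD) (_hsd : T_SD) : T_DN false := by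
  intro τ P hP
  obtain ⟨Y, hY1, h⟩ := hanc
  obtain ⟨Y1, hY⟩ := neg_line τ
  set Φ : ℂ → ℂ := fun z => MvPolynomial.aeval (cc z) P with hΦ
  -- analytic
  have han : AnalyticOnNhd ℂ Φ {z | Y < z.im} := by
    intro z hz
    have hz' : Y < z.im := hz
    have h1 := h z hz'.le
    exact AnalyticAt.aeval_mvPolynomial (fun o => cc_an (by linarith) h1.1 h1.2.1 o) P
  have hpc : IsPreconnected {z : ℂ | Y < z.im} := (convex_halfSpace_im_gt Y).isPreconnected
  -- zeros
  set z0 : ℂ := 1 / 2 + ((max Y Y1 + 1 : ℝ) : ℂ) * Complex.I with hz0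
  have hz0i : z0.im = max Y Y1 + 1 := by simp [hz0]
  have hz0r : z0.re = 1 / 2 := by simp [hz0]
  have hfr : ∃ᶠ z in 𝓝[≠] z0, Φ z = 0 := by
    have ht : Tendsto (fun s : ℝ => z0 + (s : ℂ) * Complex.I) (𝓝[≠] 0) (𝓝[≠] z0) := by
      refine tendsto_nhdsWithin_of_tendsto_nhds_of_eventually_within _ ?_ ?_
      · have h1 : Continuous fun s : ℝ => z0 + (s : ℂ) * Complex.I := by fun_prop
        have h2 := (h1.tendsto 0).mono_left (nhdsWithin_le_nhds (s := {(0 : ℝ)}ᶜ))
        simpa using h2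
      · filter_upwards [self_mem_nhdsWithin] with s hs
        have hs' : s ≠ 0 := hs
        intro h1
        have h2 : (s : ℂ) * Complex.I = 0 := by
          have h3 : z0 + (s : ℂ) * Complex.I = z0 := h1
          simpa using h3
        rcases mul_eq_zero.1 h2 with h3 | h3
        · exact hs' (by exact_mod_cast h3)
        · exact Complex.I_ne_zero h3
    refine ht.frequently (Eventually.frequently ?_)
    have h2 : ∀ᶠ s : ℝ in 𝓝[≠] 0, s ∈ Set.Ioo (-1 : ℝ) 1 :=
      mem_nhdsWithin_of_mem_nhds (Ioo_mem_nhds (by norm_num) (by norm_num))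
    filter_upwards [h2] with s hs
    set w : ℂ := z0 + (s : ℂ) * Complex.I with hw
    have hwi : w.im = max Y Y1 + 1 + s := by simp [hw, hz0i]
    have hwr : w.re = 1 / 2 := by simp [hw, hz0r]
    have h3 : Y ≤ w.im := by
      rw [hwi]
      linarith [hs.1, le_max_left Y Y1]
    have h4 : Y1 ≤ w.im := by
      rw [hwi]
      linarith [hs.1, le_max_right Y Y1]
    obtain ⟨t, ht1, ht2⟩ := hY w h4 hwr
    have h5 := hP t ht1
    show MvPolynomial.aeval (cc w) P = 0
    rw [cc_half h h3 hwr ht2]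
    exact h5
  have hz0m : z0 ∈ {z : ℂ | Y < z.im} := by
    show Y < z0.im
    rw [hz0i]
    linarith [le_max_left Y Y1]
  have hall := han.eqOn_zero_of_preconnected_of_frequently_eq_zero hpc hz0m hfr
  -- the substitution
  set f : Option (Fin 3) → MvPolynomial (Fin 4) ℂ :=
    fun o => o.elim (-MvPolynomial.X 0) (fun i => MvPolynomial.X i.succ) with hf
  set g : Fin 4 → MvPolynomial (Option (Fin 3)) ℂ :=
    Fin.cases (-MvPolynomial.X none) (fun i => MvPolynomial.X (some i)) with hg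
  have hgf : MvPolynomial.bind₁ g (MvPolynomial.bind₁ f P) = P := by
    rw [MvPolynomial.bind₁_bind₁]
    have h1 : (fun o => MvPolynomial.bind₁ g (f o)) = MvPolynomial.X := by
      funext o
      rcases o with _ | i
      · show MvPolynomial.bind₁ g (-MvPolynomial.X 0) = _
        rw [map_neg, MvPolynomial.bind₁_X_right]
        simp [hg]
      · show MvPolynomial.bind₁ g (MvPolynomial.X i.succ) = _
        rw [MvPolynomial.bind₁_X_right]
        simp [hg]
    rw [h1]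
    simp
  have h0 : MvPolynomial.bind₁ f P = 0 := by
    refine hzd (Y + 1) _ fun y hy => ?_
    have hy0 : 0 < y := by linarith
    have hyi : (Complex.I * (y : ℂ)).im = y := by simp
    have h1 : Y < (Complex.I * (y : ℂ)).im := by
      rw [hyi]
      linarith
    have h2 := hall h1
    have h3 := h _ h1.le
    have h4 : MvPolynomial.aeval (cc (Complex.I * y)) P = 0 := h2
    rw [cc_I hy0 h3.2.1 h3.1] at h4
    rw [← MvPolynomial.coe_aeval_eq_eval]
    show MvPolynomial.aeval _ (MvPolynomial.bind₁ f P) = 0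
    rw [MvPolynomial.aeval_bind₁]
    refine Eq.trans ?_ h4
    congr 2
    funext o
    rcases o with _ | i
    · show MvPolynomial.aeval _ (-MvPolynomial.X 0) = _
      rw [map_neg, MvPolynomial.aeval_X]
      rfl
    · show MvPolynomial.aeval _ (MvPolynomial.X i.succ) = _
      rw [MvPolynomial.aeval_X]
      fin_cases i <;> rfl
  rw [← hgf, h0, map_zero]

end Pool.Agent.Y165.J
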