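import Pool.Agent.Y120.J.Defs3

/-!
# J-NPT: values at the points with `j(z)` negative
-/

set_option autoImplicit false

open PowerSeries Pool.Agent.Y113 Pool.Agent.Y120.R
open Pool.Agent.TH21.MS (g0 g1 g2 jj)

namespace Pool.Agent.Y165.J

open Pool.Agent.Y120.J

/-- the values of the rescaled series -/
theorem evc_neg (f : ℚ⟦X⟧) (t : ℝ) :
    evc f (-(1 / (t : ℂ))) = ((ev t (PowerSeries.rescale (-1 : ℚ) f) : ℝ) : ℂ) := by
  unfold evc ev
  rw [Complex.ofReal_tsum]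
  refine tsum_congr fun m => ?_
  rw [coeff_rescale]
  push_cast
  rw [neg_pow]
  ring

theorem tpi_ne : tpi ≠ 0 := by
  unfold tpi
  have := Real.pi_pos.ne'
  simp [this]

theorem pS_zero (t : ℝ) : pS false t 0 = tpi * (((ev t (PowerSeries.rescale (-1 : ℚ) FF) : ℝ) : ℂ) *
    ((ev t (PowerSeries.rescale (-1 : ℚ) FF) : ℝ) : ℂ)) := by
  show MvPolynomial.aeval (p1 (hS false) t) (MvPolynomial.C tpi *
    (MvPolynomial.X (some 0) * MvPolynomial.X (some 0))) = _
  rw [map_mul, map_mul, MvPolynomial.algHom_C, MvPolynomial.aeval_X]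
  rfl

theorem pS_one (t : ℝ) : pS false t 1 = ((ev t (PowerSeries.rescale (-1 : ℚ) FF) : ℝ) : ℂ) *
    (((ev t (PowerSeries.rescale (-1 : ℚ) GG) : ℝ) : ℂ) - ((Real.log t : ℝ) : ℂ) *
      ((ev t (PowerSeries.rescale (-1 : ℚ) FF) : ℝ) : ℂ)) + (1 / 2) *
    (tpi * (((ev t (PowerSeries.rescale (-1 : ℚ) FF) : ℝ) : ℂ) *
    ((ev t (PowerSeries.rescale (-1 : ℚ) FF) : ℝ) : ℂ))) := by
  show MvPolynomial.aeval (p1 (hS false) t) (MvPolynomial.X (some 0) *
    (MvPolynomial.X (some 1) - MvPolynomial.X none * MvPolynomial.X (some 0)) +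
    MvPolynomial.C (1 / 2) * (MvPolynomial.C tpi *
    (MvPolynomial.X (some 0) * MvPolynomial.X (some 0)))) = _
  rw [map_add, map_mul, map_sub, map_mul, map_mul, map_mul, map_mul, MvPolynomial.algHom_C,
    MvPolynomial.algHom_C, MvPolynomial.aeval_X, MvPolynomial.aeval_X, MvPolynomial.aeval_X]
  rfl

theorem pS_two (t : ℝ) : pS false t 2 = tpi * (((ev t (PowerSeries.rescale (-1 : ℚ) FF) : ℝ) : ℂ) *
    ((ev t (PowerSeries.rescale (-1 : ℚ) F1) : ℝ) : ℂ)) := by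
  show MvPolynomial.aeval (p1 (hS false) t) (MvPolynomial.C tpi *
    (MvPolynomial.X (some 0) * MvPolynomial.X (some 2))) = _
  rw [map_mul, map_mul, MvPolynomial.algHom_C, MvPolynomial.aeval_X, MvPolynomial.aeval_X]
  rfl

/-- the values at a point `w` with real part `1 / 2` -/
theorem vals {Y : ℝ} (h : ∀ z : ℂ, Y ≤ z.im → jj z ≠ 0 ∧ deriv jj z ≠ 0 ∧ evc FF (1 / jj z) ≠ 0 ∧
      deriv jj z = -tpi * jj z * evc FF (1 / jj z) ^ 2 ∧
      deriv (deriv jj) z = tpi ^ 2 * jj z * (evc FF (1 / jj z) ^ 4 -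
        2 * evc FF (1 / jj z) ^ 3 * evc F1 (1 / jj z)) ∧
      Complex.exp (tpi * z - evc GG (1 / jj z) / evc FF (1 / jj z)) = 1 / jj z)
    {w : ℂ} (hw : Y ≤ w.im) (hre : w.re = 1 / 2) {t : ℝ} (ht : jj w = -(t : ℂ)) :
    pS false t 0 ≠ 0 ∧ w * pS false t 0 = pS false t 1 ∧ deriv jj w = t * pS false t 0 ∧
    deriv (deriv jj) w = -t * (pS false t 0 ^ 2 - 2 * pS false t 0 * pS false t 2) := by
  obtain ⟨h0, -, h2, h3, h4, h5⟩ := h w hw
  have e0 : 1 / jj w = -(1 / (t : ℂ)) := by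
    rw [ht, one_div, one_div, inv_neg]
  rw [e0] at h2 h3 h4 h5
  rw [evc_neg] at h2 h3 h4 h5
  rw [evc_neg] at h4 h5
  rw [ht] at h3 h4
  have ht0 : t ≠ 0 := by
    rintro rfl
    rw [ht] at h0
    simp at h0
  rw [pS_zero, pS_one, pS_two]
  set f := ev t (PowerSeries.rescale (-1 : ℚ) FF) with hf
  set g := ev t (PowerSeries.rescale (-1 : ℚ) GG) with hg
  set f1 := ev t (PowerSeries.rescale (-1 : ℚ) F1) with hf1
  have hf0 : f ≠ 0 := by
    intro h6
    rw [h6] at h2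
    exact h2 (by simp)
  have hw2 : w = 1 / 2 + (w.im : ℂ) * Complex.I := by
    apply Complex.ext
    · simp [hre]
    · simp
  -- the exponential identity
  have h6 : Complex.exp (tpi * w - (g : ℂ) / (f : ℂ)) =
      -((Real.exp (-(2 * Real.pi * w.im) - g / f) : ℝ) : ℂ) := by
    have e1 : tpi * w - (g : ℂ) / (f : ℂ) = (Real.pi : ℂ) * Complex.I +
        ((-(2 * Real.pi * w.im) - g / f : ℝ) : ℂ) := by
      conv_lhs => rw [hw2]
      unfold tpi
      push_cast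
      linear_combination (2 * (Real.pi : ℂ) * (w.im : ℂ)) * Complex.I_sq
    rw [e1, Complex.exp_add, Complex.exp_pi_mul_I, Complex.ofReal_exp]
    ring
  have h7 : Real.exp (-(2 * Real.pi * w.im) - g / f) = 1 / t := by
    rw [h6] at h5
    have h8 := neg_injective h5
    have h9 : ((Real.exp (-(2 * Real.pi * w.im) - g / f) : ℝ) : ℂ) = ((1 / t : ℝ) : ℂ) := by
      rw [h8]
      push_cast
      rfl
    exact Complex.ofReal_injective h9
  have h8 : -(2 * Real.pi * w.im) - g / f = -Real.log t := by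
    have h9 := congrArg Real.log h7
    rw [Real.log_exp, one_div, Real.log_inv] at h9
    exact h9
  have h9 : g - Real.log t * f = -(2 * Real.pi * w.im) * f := by
    have h10 : g = (g / f) * f := by field_simp
    have h11 : g / f = Real.log t - 2 * Real.pi * w.im := by linarith
    rw [h10, h11]
    ring
  have h10 : (g : ℂ) - ((Real.log t : ℝ) : ℂ) * (f : ℂ) =
      -(2 * (Real.pi : ℂ) * (w.im : ℂ)) * (f : ℂ) := by
    have := congrArg (fun x : ℝ => (x : ℂ)) h9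
    push_cast at this
    exact this
  have hfc : (f : ℂ) ≠ 0 := by exact_mod_cast hf0
  refine ⟨mul_ne_zero tpi_ne (mul_ne_zero hfc hfc), ?_, ?_, ?_⟩
  · rw [h10]
    conv_lhs => rw [hw2]
    unfold tpi
    linear_combination (2 * (Real.pi : ℂ) * (w.im : ℂ) * (f : ℂ) * (f : ℂ)) * Complex.I_sq
  · rw [h3]
    ring
  · rw [h4]
    ring

theorem t_npt (hanc : T_ANC) (hfdm : T_FDM) (_hsd : T_SD) : T_PT false := by
  obtain ⟨Y, _, h⟩ := hanc
  obtain ⟨T, hT⟩ := hfdm Y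
  refine ⟨T, fun t z ht hz => ?_⟩
  have hz' : jj z = -(t : ℂ) := by
    rw [hz]
    simp [si]
  obtain ⟨γ, w, hw1, hw2, hw3, hw4⟩ := hT z t ht hz'
  obtain ⟨v1, v2, v3, v4⟩ := vals h (w := (w : ℂ)) hw1 hw2 hw4
  refine ⟨γ, w, hw3, v1, v2, ?_, ?_⟩
  · rw [v3]
    simp [si]
  · rw [v4]
    simp [si]

end Pool.Agent.Y165.J
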